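import Mathlib

namespace Pool.Agent.Results.MP_fcd74d_nt.InfinitelyManyGood

open Finset

/-- Primes have density zero: for every `δ > 0` the number of primes up to `n` is at most `δ n`
once `n` is large. -/
theorem primeCounting_le_eps {δ : ℝ} (hδ : 0 < δ) :
    ∃ Y : ℕ, ∀ n : ℕ, Y ≤ n → (Nat.primeCounting n : ℝ) ≤ δ * n := by
  have h1 := Chebyshev.eventually_primeCounting_le (ε := 1) one_pos
  have h2 : ∀ᶠ x : ℝ in Filter.atTop, (Real.log 4 + 1) / δ ≤ Real.log x :=
    Real.tendsto_log_atTop.eventually_ge_atTop _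
  have h3 : ∀ᶠ x : ℝ in Filter.atTop, (Nat.primeCounting ⌊x⌋₊ : ℝ) ≤ δ * x := by
    filter_upwards [h1, h2, Filter.eventually_gt_atTop (1:ℝ)] with x hx1 hx2 hx3
    refine hx1.trans ?_
    have hlog : 0 < Real.log x := Real.log_pos hx3
    rw [div_le_iff₀ hδ] at hx2
    rw [div_le_iff₀ hlog]
    nlinarith
  obtain ⟨X, hX⟩ := Filter.eventually_atTop.mp h3
  refine ⟨⌈X⌉₊, fun n hn => ?_⟩
  have := hX n (Nat.ceil_le.mp hn)
  simpa using this

/-- One dyadic block. -/
theorem block_le {δ : ℝ} {u : ℕ} (hu : 0 < u)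
    (h : (Nat.primeCounting (2 * u) : ℝ) ≤ δ * (2 * u : ℕ)) :
    ∑ p ∈ (Ioc u (2 * u)).filter Nat.Prime, (1 : ℝ) / (p : ℝ) ^ 2 ≤ 2 * δ / u := by
  have hu' : (0 : ℝ) < u := by exact_mod_cast hu
  have h1 : ∀ p ∈ (Ioc u (2 * u)).filter Nat.Prime, (1 : ℝ) / (p : ℝ) ^ 2 ≤ 1 / (u : ℝ) ^ 2 := by
    intro p hp
    simp only [mem_filter, mem_Ioc] at hp
    have : (u : ℝ) ≤ p := by exact_mod_cast hp.1.1.le
    gcongr
  have h2 : ((Ioc u (2 * u)).filter Nat.Prime).card ≤ Nat.primeCounting (2 * u) := by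
    rw [← Nat.primesLE_card_eq_primeCounting]
    refine card_le_card fun p hp => ?_
    simp only [mem_filter, mem_Ioc] at hp
    exact Nat.mem_primesLE.mpr ⟨hp.1.2, hp.2⟩
  calc ∑ p ∈ (Ioc u (2 * u)).filter Nat.Prime, (1 : ℝ) / (p : ℝ) ^ 2
      ≤ ∑ p ∈ (Ioc u (2 * u)).filter Nat.Prime, 1 / (u : ℝ) ^ 2 := sum_le_sum h1
    _ = ((Ioc u (2 * u)).filter Nat.Prime).card * (1 / (u : ℝ) ^ 2) := by
        rw [sum_const, nsmul_eq_mul]
    _ ≤ (δ * (2 * u : ℕ)) * (1 / (u : ℝ) ^ 2) := by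
        gcongr
        exact le_trans (by exact_mod_cast h2) h
    _ = 2 * δ / u := by
        push_cast
        field_simp

/-- The tail of the sum of the inverse squares of the primes is `o(1/y)`. -/
theorem tail_le {ε : ℝ} (hε : 0 < ε) :
    ∃ Y : ℕ, 0 < Y ∧ ∀ y : ℕ, Y ≤ y → ∀ Z : ℕ,
      ∑ p ∈ (Ioc y Z).filter Nat.Prime, (1 : ℝ) / (p : ℝ) ^ 2 ≤ ε / y := by
  obtain ⟨Y, hY⟩ := primeCounting_le_eps (δ := ε / 4) (by positivity)
  refine ⟨Y + 1, by omega, fun y hy Z => ?_⟩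
  have hy0 : 0 < y := by omega
  have hy' : (0 : ℝ) < y := by exact_mod_cast hy0
  have key : ∀ j : ℕ, ∑ p ∈ (Ioc y (2 ^ j * y)).filter Nat.Prime, (1 : ℝ) / (p : ℝ) ^ 2
      ≤ (ε / y) * (1 - (1 / 2) ^ j) := by
    intro j
    induction j with
    | zero => simp
    | succ j ih =>
      have hu : 0 < 2 ^ j * y := by positivity
      have hle : y ≤ 2 ^ j * y := Nat.le_mul_of_pos_left y (by positivity)
      have hb := block_le (δ := ε / 4) hu (hY _ (by omega))
      have hsub : (Ioc y (2 ^ (j + 1) * y)).filter Nat.Prime ⊆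
          (Ioc y (2 ^ j * y)).filter Nat.Prime ∪
            (Ioc (2 ^ j * y) (2 * (2 ^ j * y))).filter Nat.Prime := by
        intro p hp
        simp only [mem_filter, mem_Ioc, mem_union] at hp ⊢
        have : 2 ^ (j + 1) * y = 2 * (2 ^ j * y) := by ring
        rw [this] at hp
        by_cases h : p ≤ 2 ^ j * y
        · left; exact ⟨⟨hp.1.1, h⟩, hp.2⟩
        · right; exact ⟨⟨by omega, hp.1.2⟩, hp.2⟩
      calc ∑ p ∈ (Ioc y (2 ^ (j + 1) * y)).filter Nat.Prime, (1 : ℝ) / (p : ℝ) ^ 2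
          ≤ ∑ p ∈ (Ioc y (2 ^ j * y)).filter Nat.Prime ∪
            (Ioc (2 ^ j * y) (2 * (2 ^ j * y))).filter Nat.Prime, (1 : ℝ) / (p : ℝ) ^ 2 :=
            sum_le_sum_of_subset_of_nonneg hsub (fun _ _ _ => by positivity)
        _ ≤ ∑ p ∈ (Ioc y (2 ^ j * y)).filter Nat.Prime, (1 : ℝ) / (p : ℝ) ^ 2 +
            ∑ p ∈ (Ioc (2 ^ j * y) (2 * (2 ^ j * y))).filter Nat.Prime, (1 : ℝ) / (p : ℝ) ^ 2 := by
            rw [← sum_union_inter]
            exact le_add_of_nonneg_right (sum_nonneg fun _ _ => by positivity)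
        _ ≤ (ε / y) * (1 - (1 / 2) ^ j) + 2 * (ε / 4) / (2 ^ j * y : ℕ) := by
            gcongr
        _ = (ε / y) * (1 - (1 / 2) ^ (j + 1)) := by
            push_cast
            rw [pow_succ, one_div, inv_pow]
            field_simp
            ring
  obtain ⟨j, hj⟩ : ∃ j : ℕ, Z ≤ 2 ^ j * y := ⟨Z, (Nat.lt_two_pow_self).le.trans
    (Nat.le_mul_of_pos_right _ hy0)⟩
  calc ∑ p ∈ (Ioc y Z).filter Nat.Prime, (1 : ℝ) / (p : ℝ) ^ 2
      ≤ ∑ p ∈ (Ioc y (2 ^ j * y)).filter Nat.Prime, (1 : ℝ) / (p : ℝ) ^ 2 := by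
        refine sum_le_sum_of_subset_of_nonneg ?_ (fun _ _ _ => by positivity)
        exact filter_subset_filter _ (Ioc_subset_Ioc_right hj)
    _ ≤ (ε / y) * (1 - (1 / 2) ^ j) := key j
    _ ≤ ε / y := by
        have : (0:ℝ) ≤ (1 / 2) ^ j := by positivity
        have h2 : 0 ≤ ε / y := by positivity
        nlinarith

/-- Counting the solutions of a linear congruence. -/
theorem card_congr_le {q r a m T : ℕ} (hm : 0 < m) (hq : Nat.Coprime m q) :
    ((range T).filter fun t => q * t + r ≡ a [MOD m]).card ≤ T / m + 1 := by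
  rcases (((range T).filter fun t => q * t + r ≡ a [MOD m])).eq_empty_or_nonempty with h | ⟨t₀, h₀⟩
  · rw [h]; simp
  · have hsub : ((range T).filter fun t => q * t + r ≡ a [MOD m]) ⊆
        (range T).filter fun t => t ≡ t₀ [MOD m] := by
      intro t ht
      simp only [mem_filter, mem_range] at ht h₀ ⊢
      refine ⟨ht.1, ?_⟩
      have h1 : q * t + r ≡ q * t₀ + r [MOD m] := ht.2.trans h₀.2.symm
      exact Nat.ModEq.cancel_left_of_coprime hq (Nat.ModEq.add_right_cancel' r h1)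
    refine (card_le_card hsub).trans ?_
    have h2 : ((range T).filter fun t => t ≡ t₀ [MOD m]).card
        = Nat.count (fun t => t ≡ t₀ [MOD m]) T := by
      rw [Nat.count_eq_card_filter_range]
    rw [h2, Nat.count_modEq_card T hm]
    split_ifs <;> omega

/-- The main construction: beyond every bound there is a good integer. -/
theorem exists_good (N : ℕ) : ∃ n : ℕ, N < n ∧
    ∀ k : ℕ, 1 ≤ k → 2 ^ k < n → Squarefree (n - 2 ^ k) := by
  obtain ⟨Y, hY0, hY⟩ := tail_le (ε := 1 / 24) (by norm_num)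
  -- the sieving level
  obtain ⟨y, hyY, hyN, hy9⟩ : ∃ y : ℕ, Y ≤ y ∧ N + 1 ≤ y ∧ 9 ≤ y := ⟨Y + N + 10, by omega, by omega, by omega⟩
  have hy0 : 0 < y := by omega
  have hyR : (0 : ℝ) < y := by exact_mod_cast hy0
  set q := primorial y with hqdef
  have h2q : 2 ∣ q := (Nat.prime_two.dvd_primorial_iff).mpr (by omega)
  obtain ⟨r, hr⟩ := h2q
  have hqsf : Squarefree q := squarefree_primorial y
  have hrodd : ¬ 2 ∣ r := by
    rintro ⟨s, hs⟩
    have : 2 * 2 ∣ q := ⟨s, by rw [hr, hs]; ring⟩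
    have := hqsf 2 this
    simp at this
  have hr0 : 0 < r := by
    have := primorial_pos y
    omega
  have hq4 : q ≤ 2 ^ (2 * y) := by
    have := primorial_le_four_pow y
    calc q ≤ 4 ^ y := this
      _ = 2 ^ (2 * y) := by rw [pow_mul]; norm_num
  set T := 2 ^ (4 * y) with hTdef
  by_contra hcon
  push Not at hcon
  -- every index `t ≥ N + 1` gives a non-squarefree difference
  have hbad : ∀ t : ℕ, t < T → N + 1 ≤ t → ∃ k ∈ range (6 * y),
      ∃ p ∈ (Ioc y (2 ^ (3 * y))).filter Nat.Prime, q * t + r ≡ 2 ^ k [MOD p ^ 2] := by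
    intro t htT htN
    have hnN : N < q * t + r := by
      have : t ≤ q * t := Nat.le_mul_of_pos_left t (primorial_pos y)
      omega
    obtain ⟨k, hk1, hkn, hns⟩ := hcon (q * t + r) hnN
    have hn_lt : q * t + r < 2 ^ (6 * y) := by
      have h1 : q * t + r < q * (t + 1) := by rw [mul_add]; omega
      have h2 : q * (t + 1) ≤ 2 ^ (2 * y) * 2 ^ (4 * y) := Nat.mul_le_mul hq4 (by omega)
      calc q * t + r < q * (t + 1) := h1
        _ ≤ 2 ^ (2 * y) * 2 ^ (4 * y) := h2
        _ = 2 ^ (6 * y) := by rw [← pow_add]; ring_nf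
    have hk : k < 6 * y := by
      have : 2 ^ k < 2 ^ (6 * y) := hkn.trans hn_lt
      exact (Nat.pow_lt_pow_iff_right (by norm_num)).mp this
    rw [Nat.squarefree_iff_prime_squarefree] at hns
    push Not at hns
    obtain ⟨p, hp, hpd⟩ := hns
    have hmod : q * t + r ≡ 2 ^ k [MOD p ^ 2] := by
      rw [sq]
      exact ((Nat.modEq_iff_dvd' hkn.le).mpr hpd).symm
    have hnodd : ¬ 2 ∣ q * t + r := by
      rw [hr]
      intro h
      apply hrodd
      have : 2 ∣ 2 * r * t := ⟨r * t, by ring⟩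
      exact (Nat.dvd_add_right this).mp h
    have hpy : y < p := by
      by_contra hle
      push Not at hle
      have hpq : p ∣ q := (hp.dvd_primorial_iff).mpr hle
      have hpm : p ∣ q * t + r - 2 ^ k := (Dvd.intro _ rfl).trans hpd
      by_cases h2 : p = 2
      · subst h2
        apply hnodd
        have h2k : 2 ∣ 2 ^ k := dvd_pow_self 2 (by omega)
        have := (Nat.dvd_add_right h2k).mpr hpm
        rwa [Nat.add_sub_cancel' hkn.le] at this
      · have hpr : p ∣ r := by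
          rw [hr] at hpq
          rcases (hp.dvd_mul).mp hpq with h | h
          · exact absurd ((Nat.prime_dvd_prime_iff_eq hp Nat.prime_two).mp h) h2
          · exact h
        have hpn : p ∣ q * t + r := dvd_add ((hp.dvd_primorial_iff.mpr hle).mul_right t) hpr
        have hpk : p ∣ 2 ^ k := by
          have h := (Nat.dvd_sub_iff_right hkn.le hpn).mp hpm
          exact h
        have := hp.dvd_of_dvd_pow hpk
        exact h2 ((Nat.prime_dvd_prime_iff_eq hp Nat.prime_two).mp this)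
    have hpZ : p ≤ 2 ^ (3 * y) := by
      by_contra hgt
      push Not at hgt
      have h1 : p * p ≤ q * t + r - 2 ^ k := Nat.le_of_dvd (by omega) hpd
      have h2 : 2 ^ (3 * y) * 2 ^ (3 * y) < p * p := Nat.mul_lt_mul'' hgt hgt
      have h3 : 2 ^ (3 * y) * 2 ^ (3 * y) = 2 ^ (6 * y) := by rw [← pow_add]; ring_nf
      rw [h3] at h2
      have h4 : q * t + r - 2 ^ k ≤ q * t + r := Nat.sub_le _ _
      exact absurd (h2.trans_le (h1.trans h4)) (by omega)
    exact ⟨k, mem_range.mpr hk, p, by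
      simp only [mem_filter, mem_Ioc]; exact ⟨⟨hpy, hpZ⟩, hp⟩, hmod⟩
  -- counting
  set P := (Ioc y (2 ^ (3 * y))).filter Nat.Prime with hPdef
  have hcover : range T ⊆ range (N + 1) ∪ (range (6 * y)).biUnion fun k =>
      P.biUnion fun p => (range T).filter fun t => q * t + r ≡ 2 ^ k [MOD p ^ 2] := by
    intro t ht
    rw [mem_range] at ht
    rw [mem_union]
    by_cases h : t < N + 1
    · left; exact mem_range.mpr h
    · right
      obtain ⟨k, hk, p, hp, hmod⟩ := hbad t ht (by omega)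
      simp only [mem_biUnion, mem_filter, mem_range]
      exact ⟨k, mem_range.mp hk, p, hp, ht, hmod⟩
  have hcard : T ≤ (N + 1) + 6 * y * ∑ p ∈ P, (T / p ^ 2 + 1) := by
    calc T = (range T).card := (card_range T).symm
      _ ≤ _ := card_le_card hcover
      _ ≤ (range (N + 1)).card + ((range (6 * y)).biUnion fun k =>
            P.biUnion fun p => (range T).filter fun t => q * t + r ≡ 2 ^ k [MOD p ^ 2]).card :=
          card_union_le _ _
      _ ≤ (N + 1) + ∑ k ∈ range (6 * y), ∑ p ∈ P, (T / p ^ 2 + 1) := by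
          rw [card_range]
          gcongr
          refine card_biUnion_le.trans (sum_le_sum fun k _ => ?_)
          refine card_biUnion_le.trans (sum_le_sum fun p hp => ?_)
          simp only [hPdef, mem_filter, mem_Ioc] at hp
          refine card_congr_le (pow_pos hp.2.pos 2) (Nat.Coprime.pow_left 2 ?_)
          rw [Nat.Prime.coprime_iff_not_dvd hp.2, hp.2.dvd_primorial_iff]
          omega
      _ = (N + 1) + 6 * y * ∑ p ∈ P, (T / p ^ 2 + 1) := by
          rw [sum_const, card_range, smul_eq_mul]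
  have hcardR : (T : ℝ) ≤ (N + 1) + 6 * y * (T * ((1 / 24) / y) + 2 ^ (3 * y)) := by
    have h1 : (T : ℝ) ≤ (N + 1) + 6 * y * ∑ p ∈ P, (((T / p ^ 2 : ℕ) : ℝ) + 1) := by
      exact_mod_cast hcard
    refine h1.trans ?_
    have h2 : ∑ p ∈ P, (((T / p ^ 2 : ℕ) : ℝ) + 1) ≤ T * ((1 / 24) / y) + 2 ^ (3 * y) := by
      rw [sum_add_distrib]
      have h3 : ∑ p ∈ P, ((T / p ^ 2 : ℕ) : ℝ) ≤ T * ((1 / 24) / y) := by
        calc ∑ p ∈ P, ((T / p ^ 2 : ℕ) : ℝ) ≤ ∑ p ∈ P, (T : ℝ) * (1 / (p : ℝ) ^ 2) := by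
              refine sum_le_sum fun p _ => ?_
              have := @Nat.cast_div_le ℝ _ _ _ T (p ^ 2)
              push_cast at this ⊢
              rw [mul_one_div]
              exact this
          _ = T * ∑ p ∈ P, (1 / (p : ℝ) ^ 2) := by rw [mul_sum]
          _ ≤ T * ((1 / 24) / y) := by
              gcongr
              exact hY y hyY _
      have h4 : ∑ p ∈ P, (1 : ℝ) ≤ 2 ^ (3 * y) := by
        rw [sum_const, nsmul_eq_mul, mul_one]
        have : P.card ≤ 2 ^ (3 * y) := by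
          calc P.card ≤ (Ioc y (2 ^ (3 * y))).card := card_filter_le _ _
            _ ≤ 2 ^ (3 * y) := by rw [Nat.card_Ioc]; exact Nat.sub_le _ _
        exact_mod_cast this
      linarith
    gcongr
  -- final numerical contradiction
  have hpow : 48 * y ≤ 2 ^ y := by
    clear_value T
    obtain ⟨d, rfl⟩ := Nat.exists_eq_add_of_le hy9
    clear * - d
    induction d with
    | zero => norm_num
    | succ d ih =>
      rw [show 9 + (d + 1) = (9 + d) + 1 by ring, pow_succ]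
      omega
  have hTR : (T : ℝ) = 2 ^ (3 * y) * 2 ^ y := by
    rw [hTdef]; push_cast; rw [← pow_add]; ring_nf
  have hpowR : (48 : ℝ) * y ≤ 2 ^ y := by exact_mod_cast hpow
  have h8 : (1 : ℝ) ≤ 2 ^ (3 * y) := one_le_pow₀ (by norm_num)
  have hNy : (N : ℝ) + 1 ≤ y := by exact_mod_cast hyN
  have hsimp : 6 * (y : ℝ) * (T * ((1 / 24) / y) + 2 ^ (3 * y)) = T / 4 + 6 * y * 2 ^ (3 * y) := by
    field_simp
    ring
  rw [hsimp, hTR] at hcardR
  have hA : 6 * (y : ℝ) * 2 ^ (3 * y) ≤ 2 ^ (3 * y) * 2 ^ y / 8 := by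
    nlinarith
  have hB : (y : ℝ) ≤ 2 ^ (3 * y) * 2 ^ y / 8 := by
    nlinarith
  have hC : (0 : ℝ) < 2 ^ (3 * y) * 2 ^ y := by positivity
  nlinarith

/-- There are infinitely many integers `n ≥ 3` such that `n - 2 ^ k` is squarefree for every
`k ≥ 1` with `2 ^ k < n`. -/
theorem result :
    {n : ℕ | 3 ≤ n ∧ ∀ k : ℕ, 1 ≤ k → 2 ^ k < n → Squarefree (n - 2 ^ k)}.Infinite := by
  refine Set.infinite_of_forall_exists_gt fun N => ?_
  obtain ⟨n, hn, hgood⟩ := exists_good (N + 3)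
  exact ⟨n, ⟨by omega, hgood⟩, by omega⟩

end Pool.Agent.Results.MP_fcd74d_nt.InfinitelyManyGood
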